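import Pool.Agent.H61.FOG.PTB

/-! Board `fog`, row CYI: Cauchy-Schwarz on a cyclic product. -/

open MeasureTheory unitInterval Set Filter Topology

namespace Pool.FOT

open Pool.Agent.H99.LowerTail

namespace CYI61

variable {Ω : Type} [MeasurableSpace Ω] {μ : Measure Ω} [IsProbabilityMeasure μ] {f : Ω → Ω → ℝ}

/-- The open chain. -/
def chn (f : Ω → Ω → ℝ) {m : ℕ} (τ : Fin m → Ω → ℝ) (x : Ω) (z : Fin m → Ω) (y : Ω) : ℝ :=
  (∏ i : Fin (m + 1), f ((Fin.cons x z : Fin (m + 1) → Ω) i) ((Fin.snoc z y : Fin (m + 1) → Ω) i))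
    * ∏ i : Fin m, τ i (z i)

lemma chn_succ {m : ℕ} (τ : Fin (m + 1) → Ω → ℝ) (x w : Ω) (z : Fin m → Ω) (y : Ω) :
    chn f τ x (Fin.cons w z) y = f x w * (τ 0 w * chn f (fun i => τ i.succ) w z y) := by
  unfold chn
  rw [Fin.prod_univ_succ, Fin.prod_univ_succ (f := fun i : Fin (m + 1) => τ i _)]
  simp only [Fin.cons_zero, Fin.cons_succ]
  have h0 : (Fin.snoc (Fin.cons w z : Fin (m + 1) → Ω) y : Fin (m + 2) → Ω) =
      (Fin.cons w (Fin.snoc z y : Fin (m + 1) → Ω) : Fin (m + 2) → Ω) :=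
    (Fin.cons_snoc_eq_snoc_cons w z y).symm
  rw [h0]
  simp only [Fin.cons_zero, Fin.cons_succ]
  ring

lemma abs_prod_le_one {ι : Type} (s : Finset ι) (g : ι → ℝ) (h : ∀ i ∈ s, |g i| ≤ 1) :
    |∏ i ∈ s, g i| ≤ 1 := by
  rw [Finset.abs_prod]
  exact Finset.prod_le_one (fun i _ => abs_nonneg _) h

lemma chn_bdd (hb : ∀ x y, |f x y| ≤ 1) {m : ℕ} (τ : Fin m → Ω → ℝ)
    (hτb : ∀ i t, |τ i t| ≤ 1) (x : Ω) (z : Fin m → Ω) (y : Ω) : |chn f τ x z y| ≤ 1 := by
  unfold chn
  rw [abs_mul]
  calc _ ≤ (1 : ℝ) * 1 := by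
        gcongr
        · exact abs_prod_le_one _ _ fun i _ => hb _ _
        · exact abs_prod_le_one _ _ fun i _ => hτb _ _
    _ = 1 := by norm_num

lemma meas_cons {X : Type} [MeasurableSpace X] {m : ℕ} (a : X → Ω) (b : X → Fin m → Ω)
    (ha : Measurable a) (hb : Measurable b) (i : Fin (m + 1)) :
    Measurable fun p => (Fin.cons (a p) (b p) : Fin (m + 1) → Ω) i := by
  induction i using Fin.cases with
  | zero =>
    simp only [Fin.cons_zero]
    exact ha
  | succ j =>
    simp only [Fin.cons_succ]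
    exact (measurable_pi_apply j).comp hb

lemma meas_snoc {X : Type} [MeasurableSpace X] {m : ℕ} (a : X → Ω) (b : X → Fin m → Ω)
    (ha : Measurable a) (hb : Measurable b) (i : Fin (m + 1)) :
    Measurable fun p => (Fin.snoc (b p) (a p) : Fin (m + 1) → Ω) i := by
  induction i using Fin.lastCases with
  | last =>
    simp only [Fin.snoc_last]
    exact ha
  | cast j =>
    simp only [Fin.snoc_castSucc]
    exact (measurable_pi_apply j).comp hb

lemma chn_meas (hm : Measurable (fun z : Ω × Ω => f z.1 z.2)) {m : ℕ} (τ : Fin m → Ω → ℝ)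
    (hτm : ∀ i, Measurable (τ i)) :
    Measurable (fun p : Ω × (Fin m → Ω) × Ω => chn f τ p.1 p.2.1 p.2.2) := by
  unfold chn
  refine Measurable.mul ?_ ?_
  · refine Finset.measurable_prod _ fun i _ => ?_
    have h1 := meas_cons (Ω := Ω) (fun p : Ω × (Fin m → Ω) × Ω => p.1) (fun p => p.2.1)
      measurable_fst measurable_snd.fst i
    have h2 := meas_snoc (Ω := Ω) (fun p : Ω × (Fin m → Ω) × Ω => p.2.2) (fun p => p.2.1)
      measurable_snd.snd measurable_snd.fst i
    exact hm.comp (h1.prodMk h2)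
  · exact Finset.measurable_prod _ fun i _ =>
      (hτm i).comp ((measurable_pi_apply i).comp measurable_snd.fst)

/-- Splitting off the first coordinate. -/
lemma split_zero {m : ℕ} (g : (Fin (m + 1) → Ω) → ℝ) (hg : Measurable g)
    (hgb : ∀ z, |g z| ≤ 1) :
    ∫ z : Fin (m + 1) → Ω, g z ∂(Measure.pi fun _ => μ) =
      ∫ w, ∫ z : Fin m → Ω, g (Fin.cons w z) ∂(Measure.pi fun _ => μ) ∂μ := by
  have hp := measurePreserving_piFinSuccAbove (fun _ : Fin (m + 1) => μ) 0
  have e1 : ∫ z : Fin (m + 1) → Ω, g z ∂(Measure.pi fun _ => μ) =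
      ∫ p : Ω × (Fin m → Ω), g ((MeasurableEquiv.piFinSuccAbove (fun _ : Fin (m + 1) => Ω) 0).symm p)
        ∂(μ.prod (Measure.pi fun _ => μ)) := by
    have h2 := hp.symm.integral_comp' (g := g)
    exact h2.symm
  have e2 : ∀ p : Ω × (Fin m → Ω),
      (MeasurableEquiv.piFinSuccAbove (fun _ : Fin (m + 1) => Ω) 0).symm p = Fin.cons p.1 p.2 := by
    intro p
    exact Fin.insertNth_zero' _ _
  rw [e1, integral_prod]
  · simp only [e2]
  · refine Integrable.of_bound ((hg.comp (MeasurableEquiv.measurable _)).aestronglyMeasurable) 1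
      (Eventually.of_forall fun p => ?_)
    rw [Real.norm_eq_abs]
    exact hgb _

lemma chn_int (hm : Measurable (fun z : Ω × Ω => f z.1 z.2)) (hb : ∀ x y, |f x y| ≤ 1) :
    ∀ (m : ℕ) (τ : Fin m → Ω → ℝ), (∀ i, Measurable (τ i)) → (∀ i t, |τ i t| ≤ 1) →
      ∀ x y, ∫ z : Fin m → Ω, chn f τ x z y ∂(Measure.pi fun _ => μ) =
        pth μ f (List.ofFn τ) x y := by
  intro m
  induction m with
  | zero =>
    intro τ _ _ x y
    have h : ∀ z : Fin 0 → Ω, chn f τ x z y = f x y := by
      intro z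
      unfold chn
      simp [Fin.snoc]
    simp only [h]
    rw [integral_const]
    simp [pth]
  | succ m ih =>
    intro τ hτm hτb x y
    rw [split_zero]
    · rw [List.ofFn_succ]
      show _ = ∫ w, f x w * (τ 0 w * pth μ f (List.ofFn fun i => τ i.succ) w y) ∂μ
      refine integral_congr_ae (Eventually.of_forall fun w => ?_)
      show ∫ z : Fin m → Ω, chn f τ x (Fin.cons w z) y ∂(Measure.pi fun _ => μ) =
        f x w * (τ 0 w * pth μ f (List.ofFn fun i => τ i.succ) w y)
      rw [← ih (fun i => τ i.succ) (fun i => hτm _) (fun i t => hτb _ _) w y,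
        ← integral_const_mul, ← integral_const_mul]
      refine integral_congr_ae (Eventually.of_forall fun z => ?_)
      exact chn_succ τ x w z y
    · exact (chn_meas hm τ hτm).comp
        (measurable_const.prodMk (measurable_id.prodMk measurable_const))
    · exact fun z => chn_bdd hb τ hτb x z y

lemma cyc_eq (hm : Measurable (fun z : Ω × Ω => f z.1 z.2)) (hb : ∀ x y, |f x y| ≤ 1)
    (n : ℕ) (τ : Fin (n + 3) → Ω → ℝ) (hτm : ∀ i, Measurable (τ i))
    (hτb : ∀ i t, |τ i t| ≤ 1) :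
    cyc μ f n τ = ∫ x, τ 0 x * pth μ f (List.ofFn fun i : Fin (n + 2) => τ i.succ) x x ∂μ := by
  unfold cyc
  have hmeas : Measurable (fun y : Fin (n + 3) → Ω =>
      ∏ i, (τ i (y i) * f (y i) (y (i + 1)))) := by
    refine Finset.measurable_prod _ fun i _ => ?_
    have h1 : Measurable (fun y : Fin (n + 3) → Ω => (y i, y (i + 1))) :=
      (measurable_pi_apply i).prodMk (measurable_pi_apply (i + 1))
    exact ((hτm i).comp (measurable_pi_apply i)).mul (hm.comp h1)
  have hbd : ∀ y : Fin (n + 3) → Ω, |∏ i, (τ i (y i) * f (y i) (y (i + 1)))| ≤ 1 := by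
    intro y
    refine abs_prod_le_one _ _ fun i _ => ?_
    rw [abs_mul]
    calc _ ≤ (1 : ℝ) * 1 := by
          gcongr
          · exact hτb _ _
          · exact hb _ _
      _ = 1 := by norm_num
  rw [split_zero _ hmeas hbd]
  refine integral_congr_ae (Eventually.of_forall fun x => ?_)
  show ∫ z : Fin (n + 2) → Ω, ∏ i, (τ i ((Fin.cons x z : Fin (n + 3) → Ω) i) *
      f ((Fin.cons x z : Fin (n + 3) → Ω) i) ((Fin.cons x z : Fin (n + 3) → Ω) (i + 1)))
      ∂(Measure.pi fun _ => μ) = τ 0 x * pth μ f (List.ofFn fun i : Fin (n + 2) => τ i.succ) x x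
  rw [← chn_int hm hb (n + 2) (fun i => τ i.succ) (fun i => hτm _) (fun i t => hτb _ _) x x,
    ← integral_const_mul]
  refine integral_congr_ae (Eventually.of_forall fun z => ?_)
  show ∏ i, (τ i ((Fin.cons x z : Fin (n + 3) → Ω) i) *
      f ((Fin.cons x z : Fin (n + 3) → Ω) i) ((Fin.cons x z : Fin (n + 3) → Ω) (i + 1))) =
      τ 0 x * chn f (fun i => τ i.succ) x z x
  unfold chn
  rw [Finset.prod_mul_distrib]
  have h1 : ∏ i : Fin (n + 3), τ i ((Fin.cons x z : Fin (n + 3) → Ω) i) =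
      τ 0 x * ∏ i : Fin (n + 2), τ i.succ (z i) := by
    rw [Fin.prod_univ_succ]
    simp only [Fin.cons_zero, Fin.cons_succ]
  have h2 : ∀ i : Fin (n + 3), (Fin.cons x z : Fin (n + 3) → Ω) (i + 1) =
      (Fin.snoc z x : Fin (n + 3) → Ω) i := by
    intro i
    refine Fin.lastCases ?_ (fun j => ?_) i
    · rw [Fin.last_add_one]
      simp
    · rw [Fin.coeSucc_eq_succ]
      simp
  rw [h1]
  simp only [h2]
  ring

/-- Cauchy-Schwarz for bounded measurable functions. -/
lemma cs {X : Type} [MeasurableSpace X] (ν : Measure X) [IsProbabilityMeasure ν] (A B : X → ℝ)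
    (hA : Measurable A) (hB : Measurable B) (hA1 : ∀ x, |A x| ≤ 1) (hB1 : ∀ x, |B x| ≤ 1) :
    (∫ x, A x * B x ∂ν) ^ 2 ≤ (∫ x, A x ^ 2 ∂ν) * ∫ x, B x ^ 2 ∂ν := by
  have iA : Integrable (fun x => A x ^ 2) ν := by
    refine Integrable.of_bound (hA.pow_const 2).aestronglyMeasurable 1
      (Eventually.of_forall fun x => ?_)
    rw [Real.norm_eq_abs, abs_pow]
    exact pow_le_one₀ (abs_nonneg _) (hA1 x)
  have iB : Integrable (fun x => B x ^ 2) ν := by
    refine Integrable.of_bound (hB.pow_const 2).aestronglyMeasurable 1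
      (Eventually.of_forall fun x => ?_)
    rw [Real.norm_eq_abs, abs_pow]
    exact pow_le_one₀ (abs_nonneg _) (hB1 x)
  have iAB : Integrable (fun x => A x * B x) ν := by
    refine Integrable.of_bound (hA.mul hB).aestronglyMeasurable 1
      (Eventually.of_forall fun x => ?_)
    rw [Real.norm_eq_abs, abs_mul]
    calc _ ≤ (1 : ℝ) * 1 := by
          gcongr
          · exact hA1 _
          · exact hB1 _
      _ = 1 := by norm_num
  have h : ∀ t : ℝ, 0 ≤ (∫ x, A x ^ 2 ∂ν) * (t * t) + (2 * ∫ x, A x * B x ∂ν) * t +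
      ∫ x, B x ^ 2 ∂ν := by
    intro t
    have h1 : ∫ x, (A x * t + B x) ^ 2 ∂ν = (∫ x, A x ^ 2 ∂ν) * (t * t) +
        (2 * ∫ x, A x * B x ∂ν) * t + ∫ x, B x ^ 2 ∂ν := by
      have h2 : ∀ x, (A x * t + B x) ^ 2 = A x ^ 2 * (t * t) + (A x * B x) * (2 * t) + B x ^ 2 := by
        intro x; ring
      simp only [h2]
      have iC : Integrable (fun x => A x ^ 2 * (t * t) + (A x * B x) * (2 * t)) ν :=
        (iA.mul_const _).add (iAB.mul_const _)
      rw [integral_add iC iB, integral_add (iA.mul_const _) (iAB.mul_const _),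
        integral_mul_const, integral_mul_const]
      ring
    rw [← h1]
    exact integral_nonneg fun x => sq_nonneg _
  have hd := discrim_le_zero h
  unfold discrim at hd
  nlinarith [hd]

end CYI61

open CYI61 in
theorem t_cyi : CYIStmt := by
  intro Ω _ μ _ f hs hm hb n a b hab τ hτm hτb
  have hall : WOk (List.ofFn fun i : Fin (n + 2) => τ i.succ) := by
    intro κ hκ
    rw [List.mem_ofFn'] at hκ
    obtain ⟨i, rfl⟩ := hκ
    exact ⟨hτm _, hτb _⟩
  have hlen : (List.ofFn fun i : Fin (n + 2) => τ i.succ).length = n + 2 := List.length_ofFn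
  obtain ⟨L, hL⟩ : ∃ L, L = List.ofFn fun i : Fin (n + 2) => τ i.succ := ⟨_, rfl⟩
  rw [← hL] at hall hlen
  have hdrop : (L.drop a).length = b + 1 := by
    rw [List.length_drop, hlen]
    omega
  obtain ⟨t, l', hl'⟩ : ∃ t l', L.drop a = t :: l' := by
    cases h : L.drop a with
    | nil => rw [h] at hdrop; simp at hdrop
    | cons t l' => exact ⟨t, l', rfl⟩
  have hsplit : L = L.take a ++ t :: l' := by
    rw [← hl', List.take_append_drop]
  have hlok : WOk (L.take a) := fun κ hκ => hall κ (List.mem_of_mem_take hκ)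
  have hdok : WOk (t :: l') := by
    rw [← hl']
    exact fun κ hκ => hall κ (List.mem_of_mem_drop hκ)
  obtain ⟨ht, hl'ok⟩ := PTB61.wok_cons.1 hdok
  have htok : WOk [t] := PTB61.wok_cons.2 ⟨ht, fun σ' hσ' => absurd hσ' (List.not_mem_nil)⟩
  refine ⟨L.take a, l', hlok, hl'ok, ?_, ?_, ?_⟩
  · rw [List.length_take, hlen]
    omega
  · rw [hl'] at hdrop
    simpa using hdrop
  · rw [cyc_eq hm hb n τ hτm hτb, ← hL]
    have mA : Measurable (fun z : Ω × Ω => τ 0 z.1 * pth μ f (L.take a) z.1 z.2) :=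
      ((hτm 0).comp measurable_fst).mul (PTB61.basic hm hb _ hlok).1
    have mB : Measurable (fun z : Ω × Ω => t z.2 * pth μ f l' z.2 z.1) :=
      (ht.1.comp measurable_snd).mul
        ((PTB61.basic hm hb _ hl'ok).1.comp measurable_swap)
    have bA : ∀ z : Ω × Ω, |τ 0 z.1 * pth μ f (L.take a) z.1 z.2| ≤ 1 := by
      intro z
      rw [abs_mul]
      calc _ ≤ (1 : ℝ) * 1 := by
            gcongr
            · exact hτb _ _
            · exact (PTB61.basic hm hb _ hlok).2 _ _
        _ = 1 := by norm_num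
    have bB : ∀ z : Ω × Ω, |t z.2 * pth μ f l' z.2 z.1| ≤ 1 := by
      intro z
      rw [abs_mul]
      calc _ ≤ (1 : ℝ) * 1 := by
            gcongr
            · exact ht.2 _
            · exact (PTB61.basic hm hb _ hl'ok).2 _ _
        _ = 1 := by norm_num
    have e1 : ∫ x, τ 0 x * pth μ f L x x ∂μ =
        ∫ z : Ω × Ω, (τ 0 z.1 * pth μ f (L.take a) z.1 z.2) * (t z.2 * pth μ f l' z.2 z.1)
          ∂(μ.prod μ) := by
      rw [integral_prod]
      · refine integral_congr_ae (Eventually.of_forall fun x => ?_)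
        show τ 0 x * pth μ f L x x = ∫ z, (τ 0 x * pth μ f (L.take a) x z) *
          (t z * pth μ f l' z x) ∂μ
        have e2 : pth μ f L x x = ∫ z, pth μ f (L.take a) x z * (t z * pth μ f l' z x) ∂μ := by
          conv_lhs => rw [hsplit]
          exact PTB61.concat hm hb t l' htok hl'ok _ hlok x x
        rw [e2, ← integral_const_mul]
        refine integral_congr_ae (Eventually.of_forall fun z => ?_)
        show τ 0 x * (pth μ f (L.take a) x z * (t z * pth μ f l' z x)) =
          (τ 0 x * pth μ f (L.take a) x z) * (t z * pth μ f l' z x)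
        ring
      · refine Integrable.of_bound (mA.mul mB).aestronglyMeasurable 1
          (Eventually.of_forall fun z => ?_)
        show ‖(τ 0 z.1 * pth μ f (L.take a) z.1 z.2) * (t z.2 * pth μ f l' z.2 z.1)‖ ≤ 1
        rw [norm_mul, Real.norm_eq_abs, Real.norm_eq_abs]
        calc _ ≤ (1 : ℝ) * 1 := by
              gcongr
              · exact bA z
              · exact bB z
          _ = 1 := by norm_num
    rw [e1]
    refine (cs (μ.prod μ) _ _ mA mB bA bB).trans ?_
    have sqm : ∀ (g : Ω × Ω → ℝ) (k : Ω × Ω → ℝ), Measurable g → Measurable k →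
        (∀ z, |g z| ≤ 1) → (∀ z, |k z| ≤ 1) →
        ∫ z, (g z * k z) ^ 2 ∂(μ.prod μ) ≤ ∫ z, k z ^ 2 ∂(μ.prod μ) := by
      intro g k hg hk hg1 hk1
      refine integral_mono ?_ ?_ ?_
      · refine Integrable.of_bound ((hg.mul hk).pow_const 2).aestronglyMeasurable 1
          (Eventually.of_forall fun z => ?_)
        rw [Real.norm_eq_abs, abs_pow, abs_mul]
        exact pow_le_one₀ (by positivity) (mul_le_one₀ (hg1 z) (abs_nonneg _) (hk1 z))
      · refine Integrable.of_bound (hk.pow_const 2).aestronglyMeasurable 1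
          (Eventually.of_forall fun z => ?_)
        rw [Real.norm_eq_abs, abs_pow]
        exact pow_le_one₀ (abs_nonneg _) (hk1 z)
      · intro z
        show (g z * k z) ^ 2 ≤ k z ^ 2
        rw [mul_pow]
        have : g z ^ 2 ≤ 1 := (sq_le_one_iff_abs_le_one _).2 (hg1 z)
        nlinarith [sq_nonneg (k z)]
    have hA := sqm (fun z => τ 0 z.1) (fun z => pth μ f (L.take a) z.1 z.2)
      ((hτm 0).comp measurable_fst) (PTB61.basic hm hb _ hlok).1 (fun z => hτb _ _)
      (fun z => (PTB61.basic hm hb _ hlok).2 _ _)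
    have hB := sqm (fun z => t z.2) (fun z => pth μ f l' z.2 z.1)
      (ht.1.comp measurable_snd) ((PTB61.basic hm hb _ hl'ok).1.comp measurable_swap)
      (fun z => ht.2 _) (fun z => (PTB61.basic hm hb _ hl'ok).2 _ _)
    have hsw : ∫ z : Ω × Ω, pth μ f l' z.2 z.1 ^ 2 ∂(μ.prod μ) = pN μ f l' := by
      unfold pN
      exact integral_prod_swap (μ := μ) (ν := μ) (fun z : Ω × Ω => pth μ f l' z.1 z.2 ^ 2)
    rw [hsw] at hB
    have n1 : 0 ≤ ∫ z : Ω × Ω, (t z.2 * pth μ f l' z.2 z.1) ^ 2 ∂(μ.prod μ) :=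
      integral_nonneg fun z => sq_nonneg _
    have n2 : 0 ≤ pN μ f (L.take a) := integral_nonneg fun z => sq_nonneg _
    exact mul_le_mul hA hB n1 n2

end Pool.FOT
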