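import Pool.Agent.H61.FOG.CYI

/-! Board `fog`, row CYV: integrating along a cycle, the other coordinates being fixed. -/

open MeasureTheory unitInterval Set Filter Topology

namespace Pool.FOT

open Pool.Agent.H99.LowerTail

namespace CYV61

variable {V Ω : Type} [Fintype V] [DecidableEq V] [MeasurableSpace Ω] {μ : Measure Ω}
  [IsProbabilityMeasure μ]

lemma ext_meas {m : ℕ} (c : Fin m → V) (hc : Function.Injective c) :
    Measurable (fun p : (V → Ω) × (Fin m → Ω) => Function.extend c p.2 p.1) := by
  refine measurable_pi_lambda _ fun v => ?_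
  by_cases h : ∃ i, c i = v
  · obtain ⟨i, rfl⟩ := h
    simp only [hc.extend_apply]
    exact (measurable_pi_apply i).comp measurable_snd
  · simp only [Function.extend_apply' _ _ _ h]
    exact (measurable_pi_apply v).comp measurable_fst

lemma ext_map {m : ℕ} (c : Fin m → V) (hc : Function.Injective c) :
    Measure.map (fun p : (V → Ω) × (Fin m → Ω) => Function.extend c p.2 p.1)
      ((Measure.pi fun _ : V => μ).prod (Measure.pi fun _ : Fin m => μ)) =
      Measure.pi fun _ : V => μ := by
  symm
  refine Measure.pi_eq fun s hs => ?_
  rw [Measure.map_apply (ext_meas c hc) (MeasurableSet.univ_pi hs)]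
  have h1 : (fun p : (V → Ω) × (Fin m → Ω) => Function.extend c p.2 p.1) ⁻¹' (univ.pi s) =
      (univ.pi fun v => if v ∈ Finset.univ.image c then univ else s v) ×ˢ
        (univ.pi fun i => s (c i)) := by
    ext ⟨x, y⟩
    simp only [mem_preimage, Set.mem_pi, mem_univ, true_implies, mem_prod]
    constructor
    · intro h
      constructor
      · intro v
        by_cases hv : v ∈ Finset.univ.image c
        · rw [if_pos hv]; exact mem_univ _
        · rw [if_neg hv]
          have h2 := h v
          rwa [Function.extend_apply' _ _ _ (by simpa using hv)] at h2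
      · intro i
        have h2 := h (c i)
        rwa [hc.extend_apply] at h2
    · rintro ⟨h1, h2⟩ v
      by_cases hv : ∃ i, c i = v
      · obtain ⟨i, rfl⟩ := hv
        rw [hc.extend_apply]
        exact h2 i
      · rw [Function.extend_apply' _ _ _ hv]
        have h3 := h1 v
        rwa [if_neg (by simpa using hv)] at h3
  rw [h1, Measure.prod_prod, Measure.pi_pi, Measure.pi_pi]
  have h2 : ∏ v, μ (if v ∈ Finset.univ.image c then univ else s v) =
      ∏ v ∈ (Finset.univ.image c)ᶜ, μ (s v) := by
    rw [← Finset.prod_mul_prod_compl (Finset.univ.image c)]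
    have a1 : ∏ v ∈ Finset.univ.image c, μ (if v ∈ Finset.univ.image c then univ else s v) = 1 := by
      refine Finset.prod_eq_one fun v hv => ?_
      rw [if_pos hv, measure_univ]
    rw [a1, one_mul]
    refine Finset.prod_congr rfl fun v hv => ?_
    rw [if_neg (Finset.mem_compl.1 hv)]
  have h3 : ∏ i : Fin m, μ (s (c i)) = ∏ v ∈ Finset.univ.image c, μ (s v) := by
    rw [Finset.prod_image fun a _ b _ h => hc h]
  rw [h2, h3, mul_comm, Finset.prod_mul_prod_compl]

lemma inv_piecewise {F : (V → Ω) → ℝ} (T : Finset V)
    (h : ∀ v ∈ T, ∀ x t, F (Function.update x v t) = F x) (w x : V → Ω) :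
    F (T.piecewise w x) = F x := by
  induction T using Finset.induction_on with
  | empty => rw [Finset.piecewise_empty]
  | insert v T hv ih =>
    rw [Finset.piecewise_insert, h v (Finset.mem_insert_self _ _)]
    exact ih fun u hu => h u (Finset.mem_insert_of_mem hu)

end CYV61

open CYV61 in
theorem t_cyv : CYVStmt := by
  intro V Ω _ _ _ μ _ f hm hb n c hc M hM G R hGm hRm hGb hRb hG hR
  obtain ⟨F, hF⟩ : ∃ F : (V → Ω) → ℝ,
      F = fun x => R x * ∏ i, (G i x * f (x (c i)) (x (c (i + 1)))) := ⟨_, rfl⟩
  have hFm : Measurable F := by
    rw [hF]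
    refine hRm.mul (Finset.measurable_prod _ fun i _ => (hGm i).mul ?_)
    have h1 : Measurable (fun x : V → Ω => (x (c i), x (c (i + 1)))) :=
      (measurable_pi_apply _).prodMk (measurable_pi_apply _)
    exact hm.comp h1
  have hFb : ∀ x, |F x| ≤ 1 := by
    intro x
    rw [hF]
    show |R x * ∏ i, (G i x * f (x (c i)) (x (c (i + 1))))| ≤ 1
    rw [abs_mul]
    refine mul_le_one₀ (hRb x) (abs_nonneg _) (CYI61.abs_prod_le_one _ _ fun i _ => ?_)
    rw [abs_mul]
    exact mul_le_one₀ (hGb i x) (abs_nonneg _) (hb _ _)
  have hint : ∫ x : V → Ω, F x ∂(Measure.pi fun _ => μ) =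
      ∫ x : V → Ω, ∫ y : Fin (n + 3) → Ω, F (Function.extend c y x)
        ∂(Measure.pi fun _ => μ) ∂(Measure.pi fun _ => μ) := by
    conv_lhs => rw [← ext_map (μ := μ) c hc]
    rw [integral_map (ext_meas c hc).aemeasurable hFm.aestronglyMeasurable, integral_prod]
    refine Integrable.of_bound (hFm.comp (ext_meas c hc)).aestronglyMeasurable 1
      (Eventually.of_forall fun p => ?_)
    rw [Real.norm_eq_abs]
    exact hFb _
  have hinner : ∀ x : V → Ω, ∫ y : Fin (n + 3) → Ω, F (Function.extend c y x)
      ∂(Measure.pi fun _ => μ) =
      R x * cyc μ f n (fun i t => G i (Function.update x (c i) t)) := by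
    intro x
    unfold cyc
    rw [← integral_const_mul]
    refine integral_congr_ae (Eventually.of_forall fun y => ?_)
    show F (Function.extend c y x) = R x * ∏ i, (G i (Function.update x (c i) (y i)) *
      f (y i) (y (i + 1)))
    rw [hF]
    show R (Function.extend c y x) * ∏ i, (G i (Function.extend c y x) *
      f (Function.extend c y x (c i)) (Function.extend c y x (c (i + 1)))) = _
    have hRx : R (Function.extend c y x) = R x := by
      have h1 := inv_piecewise (F := R) (Finset.univ.image c) (fun v hv x t => by
        obtain ⟨j, -, rfl⟩ := Finset.mem_image.1 hv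
        exact hR j x t) (Function.extend c y x) x
      have h2 : (Finset.univ.image c).piecewise (Function.extend c y x) x =
          Function.extend c y x := by
        funext v
        by_cases hv : v ∈ Finset.univ.image c
        · rw [Finset.piecewise_eq_of_mem _ _ _ hv]
        · rw [Finset.piecewise_eq_of_notMem _ _ _ hv,
            Function.extend_apply' _ _ _ (by simpa using hv)]
      rw [h2] at h1
      exact h1
    have hGx : ∀ i, G i (Function.extend c y x) = G i (Function.update x (c i) (y i)) := by
      intro i
      have h1 := inv_piecewise (F := G i) ((Finset.univ.erase i).image c) (fun v hv x t => by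
        obtain ⟨j, hj, rfl⟩ := Finset.mem_image.1 hv
        exact hG i j (Finset.ne_of_mem_erase hj) x t) (Function.extend c y x)
        (Function.update x (c i) (y i))
      have h2 : ((Finset.univ.erase i).image c).piecewise (Function.extend c y x)
          (Function.update x (c i) (y i)) = Function.extend c y x := by
        funext v
        by_cases hv : v ∈ (Finset.univ.erase i).image c
        · rw [Finset.piecewise_eq_of_mem _ _ _ hv]
        · rw [Finset.piecewise_eq_of_notMem _ _ _ hv]
          by_cases hvi : v = c i
          · subst hvi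
            rw [Function.update_self, hc.extend_apply]
          · rw [Function.update_of_ne hvi, Function.extend_apply']
            rintro ⟨j, rfl⟩
            refine hv (Finset.mem_image.2 ⟨j, Finset.mem_erase.2 ⟨?_, Finset.mem_univ _⟩, rfl⟩)
            rintro rfl
            exact hvi rfl
      rw [h2] at h1
      exact h1
    rw [hRx]
    simp only [hGx, hc.extend_apply]
  have hgoal : ∫ x : V → Ω, R x * ∏ i, (G i x * f (x (c i)) (x (c (i + 1))))
      ∂(Measure.pi fun _ => μ) = ∫ x : V → Ω, F x ∂(Measure.pi fun _ => μ) := by rw [hF]
  rw [hgoal, hint]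
  simp only [hinner]
  refine abs_integral_le_integral_abs.trans ?_
  rw [← integral_const_mul]
  refine integral_mono_of_nonneg (Eventually.of_forall fun x => abs_nonneg _) ?_
    (Eventually.of_forall fun x => ?_)
  · refine Integrable.const_mul ?_ _
    refine Integrable.of_bound (hRm.abs).aestronglyMeasurable 1
      (Eventually.of_forall fun x => ?_)
    rw [Real.norm_eq_abs, abs_abs]
    exact hRb x
  · show |R x * cyc μ f n (fun i t => G i (Function.update x (c i) t))| ≤ M * |R x|
    rw [abs_mul, mul_comm]
    refine mul_le_mul_of_nonneg_right (hM _ (fun i => ?_) (fun i t => hGb _ _)) (abs_nonneg _)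
    exact (hGm i).comp (measurable_update x)

end Pool.FOT
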