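import Pool.Agent.H22.FOT.Defs2

/-! Board `fog`, row GN2: the function of the row averages. -/

open MeasureTheory unitInterval Set Filter Topology

namespace Pool.FOT

open Pool.Agent.H99.LowerTail

namespace GN261

lemma ber (m s : ℝ) (hm : 0 ≤ m) (hs : 0 ≤ s) (d : ℕ) :
    ((d + 1 : ℕ) : ℝ) * m ^ d * (s - m) ≤ s ^ (d + 1) - m ^ (d + 1) := by
  induction d with
  | zero => simp
  | succ d ih =>
    have h1 := mul_le_mul_of_nonneg_left ih hs
    have h2 : 0 ≤ ((d + 1 : ℕ) : ℝ) * m ^ d * (s - m) ^ 2 := by positivity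
    have e1 : s ^ (d + 1 + 1) - m ^ (d + 1 + 1) - ((d + 1 + 1 : ℕ) : ℝ) * m ^ (d + 1) * (s - m)
        = (s * (s ^ (d + 1) - m ^ (d + 1)) - s * (((d + 1 : ℕ) : ℝ) * m ^ d * (s - m)))
          + ((d + 1 : ℕ) : ℝ) * m ^ d * (s - m) ^ 2 := by
      push_cast
      ring
    linarith

lemma ber2 (m s : ℝ) (hm : 0 ≤ m) (hs : 0 ≤ s) (d : ℕ) :
    ((d + 2 : ℕ) : ℝ) * m ^ (d + 1) * (s - m) + m ^ d * (s - m) ^ 2 ≤
      s ^ (d + 2) - m ^ (d + 2) := by
  induction d with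
  | zero =>
    have : s ^ (0 + 2) - m ^ (0 + 2) - (((0 + 2 : ℕ) : ℝ) * m ^ (0 + 1) * (s - m) +
      m ^ 0 * (s - m) ^ 2) = 0 := by
      push_cast
      ring
    linarith
  | succ d ih =>
    have h1 := mul_le_mul_of_nonneg_left ih hs
    have h2 : 0 ≤ ((d + 1 : ℕ) : ℝ) * m ^ (d + 1) * (s - m) ^ 2 := by positivity
    have h3 : 0 ≤ s * (m ^ d * (s - m) ^ 2) := by positivity
    have e1 : s ^ (d + 1 + 2) - m ^ (d + 1 + 2) -
        (((d + 1 + 2 : ℕ) : ℝ) * m ^ (d + 1 + 1) * (s - m) + m ^ (d + 1) * (s - m) ^ 2)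
        = (s * (s ^ (d + 2) - m ^ (d + 2)) -
            s * (((d + 2 : ℕ) : ℝ) * m ^ (d + 1) * (s - m) + m ^ d * (s - m) ^ 2))
          + ((d + 1 : ℕ) : ℝ) * m ^ (d + 1) * (s - m) ^ 2 + s * (m ^ d * (s - m) ^ 2) := by
      push_cast
      ring
    linarith

lemma vert1 (m s : ℝ) (hm : 0 ≤ m) (hs : 0 ≤ s) (e d : ℕ) (hde : d ≤ e) :
    (d : ℝ) * m ^ (e - 1) * (s - m) ≤ m ^ (e - d) * (s ^ d - m ^ d) := by
  rcases d with _ | d
  · simp
  · have h := mul_le_mul_of_nonneg_left (ber m s hm hs d) (pow_nonneg hm (e - (d + 1)))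
    have e1 : m ^ (e - 1) = m ^ (e - (d + 1)) * m ^ d := by
      rw [← pow_add]
      congr 1
      omega
    calc ((d + 1 : ℕ) : ℝ) * m ^ (e - 1) * (s - m)
        = m ^ (e - (d + 1)) * (((d + 1 : ℕ) : ℝ) * m ^ d * (s - m)) := by rw [e1]; ring
      _ ≤ _ := h

lemma vert2 (m s : ℝ) (hm : 0 ≤ m) (hs : 0 ≤ s) (e d : ℕ) (hde : d ≤ e) (hd : 2 ≤ d) :
    (d : ℝ) * m ^ (e - 1) * (s - m) + m ^ (e - 2) * (s - m) ^ 2 ≤
      m ^ (e - d) * (s ^ d - m ^ d) := by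
  obtain ⟨k, rfl⟩ := Nat.exists_eq_add_of_le' hd
  have h := mul_le_mul_of_nonneg_left (ber2 m s hm hs k) (pow_nonneg hm (e - (k + 2)))
  have e1 : m ^ (e - 1) = m ^ (e - (k + 2)) * m ^ (k + 1) := by
    rw [← pow_add]
    congr 1
    omega
  have e2 : m ^ (e - 2) = m ^ (e - (k + 2)) * m ^ k := by
    rw [← pow_add]
    congr 1
    omega
  calc ((k + 2 : ℕ) : ℝ) * m ^ (e - 1) * (s - m) + m ^ (e - 2) * (s - m) ^ 2
      = m ^ (e - (k + 2)) * (((k + 2 : ℕ) : ℝ) * m ^ (k + 1) * (s - m) +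
          m ^ k * (s - m) ^ 2) := by rw [e1, e2]; ring
    _ ≤ _ := h

lemma deg_le {V : Type} [Fintype V] (H : SimpleGraph V) (v : V) : dg H v ≤ numEdges H := by
  classical
  unfold dg
  rw [← SimpleGraph.card_incidenceFinset_eq_degree]
  unfold numEdges
  refine Finset.card_le_card ?_
  intro a ha
  rw [SimpleGraph.mem_incidenceFinset] at ha
  rw [SimpleGraph.mem_edgeFinset]
  exact ha.1

lemma sum_deg {V : Type} [Fintype V] (H : SimpleGraph V) :
    ∑ v : V, (dg H v : ℝ) = 2 * numEdges H := by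
  classical
  have := H.sum_degrees_eq_twice_card_edges
  unfold dg
  unfold numEdges
  exact_mod_cast this

end GN261

open GN261 in
theorem t_gn2 : GN2Stmt := by
  classical
  intro V _ H hv m s hm0 _ hs0 _
  obtain ⟨v0, hv0⟩ := hv
  have key : ∀ v : V, (dg H v : ℝ) * m ^ (numEdges H - 1) * (s - m) +
      (if v = v0 then m ^ (numEdges H - 2) * (s - m) ^ 2 else 0) ≤
      m ^ (numEdges H - dg H v) * (s ^ dg H v - m ^ dg H v) := by
    intro v
    by_cases h : v = v0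
    · subst h
      rw [if_pos rfl]
      exact vert2 m s hm0 hs0 _ _ (deg_le H v) hv0
    · rw [if_neg h, add_zero]
      exact vert1 m s hm0 hs0 _ _ (deg_le H v)
  have hsum := Finset.sum_le_sum fun v (_ : v ∈ (Finset.univ : Finset V)) => key v
  rw [Finset.sum_add_distrib, Finset.sum_ite_eq' Finset.univ v0, if_pos (Finset.mem_univ v0)]
    at hsum
  have e1 : ∑ v : V, (dg H v : ℝ) * m ^ (numEdges H - 1) * (s - m) =
      2 * numEdges H * m ^ (numEdges H - 1) * (s - m) := by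
    rw [← sum_deg H, Finset.sum_mul, Finset.sum_mul]
  rw [e1] at hsum
  exact hsum

end Pool.FOT
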