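import Pool.Agent.H22.FOT.Defs2

/-! Board `fog`, row PTB: basic facts on path kernels. -/

open MeasureTheory unitInterval Set Filter Topology

namespace Pool.FOT

open Pool.Agent.H99.LowerTail

namespace PTB61

variable {Ω : Type} [MeasurableSpace Ω] {μ : Measure Ω} [IsProbabilityMeasure μ] {f : Ω → Ω → ℝ}

lemma wok_cons {τ : Ω → ℝ} {l : List (Ω → ℝ)} :
    WOk (τ :: l) ↔ (Measurable τ ∧ ∀ x, |τ x| ≤ 1) ∧ WOk l := by
  unfold WOk
  simp

lemma basic (hm : Measurable (fun z : Ω × Ω => f z.1 z.2)) (hb : ∀ x y, |f x y| ≤ 1) :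
    ∀ l : List (Ω → ℝ), WOk l → Measurable (fun z : Ω × Ω => pth μ f l z.1 z.2) ∧
      ∀ x y, |pth μ f l x y| ≤ 1 := by
  intro l
  induction l with
  | nil => intro _; exact ⟨hm, hb⟩
  | cons τ l ih =>
    intro hw
    obtain ⟨⟨hτm, hτb⟩, hl⟩ := wok_cons.1 hw
    obtain ⟨hlm, hlb⟩ := ih hl
    constructor
    · have h1 : Measurable (fun p : (Ω × Ω) × Ω =>
          f p.1.1 p.2 * (τ p.2 * pth μ f l p.2 p.1.2)) := by
        have a1 : Measurable (fun p : (Ω × Ω) × Ω => f p.1.1 p.2) :=
          hm.comp (measurable_fst.fst.prodMk measurable_snd)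
        have a2 : Measurable (fun p : (Ω × Ω) × Ω => τ p.2) := hτm.comp measurable_snd
        have a3 : Measurable (fun p : (Ω × Ω) × Ω => pth μ f l p.2 p.1.2) :=
          hlm.comp (measurable_snd.prodMk measurable_fst.snd)
        exact a1.mul (a2.mul a3)
      exact (h1.stronglyMeasurable.integral_prod_right' (ν := μ)).measurable
    · intro x y
      have h : ‖∫ z, f x z * (τ z * pth μ f l z y) ∂μ‖ ≤ 1 * μ.real univ := by
        refine norm_integral_le_of_norm_le_const (Eventually.of_forall fun z => ?_)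
        rw [norm_mul, norm_mul, Real.norm_eq_abs, Real.norm_eq_abs, Real.norm_eq_abs]
        calc |f x z| * (|τ z| * |pth μ f l z y|) ≤ 1 * (1 * 1) := by
              gcongr
              · exact hb x z
              · exact hτb z
              · exact hlb z y
          _ = 1 := by norm_num
      simpa [Real.norm_eq_abs, pth] using h

lemma meas_left (hm : Measurable (fun z : Ω × Ω => f z.1 z.2)) (hb : ∀ x y, |f x y| ≤ 1)
    {l : List (Ω → ℝ)} (hl : WOk l) (x : Ω) : Measurable (fun z => pth μ f l x z) :=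
  (basic hm hb l hl).1.comp (measurable_const.prodMk measurable_id)

lemma meas_right (hm : Measurable (fun z : Ω × Ω => f z.1 z.2)) (hb : ∀ x y, |f x y| ≤ 1)
    {l : List (Ω → ℝ)} (hl : WOk l) (y : Ω) : Measurable (fun z => pth μ f l z y) :=
  (basic hm hb l hl).1.comp (measurable_id.prodMk measurable_const)

lemma concat (hm : Measurable (fun z : Ω × Ω => f z.1 z.2)) (hb : ∀ x y, |f x y| ≤ 1)
    (τ : Ω → ℝ) (l' : List (Ω → ℝ)) (hτ : WOk [τ]) (hl' : WOk l') :
    ∀ l : List (Ω → ℝ), WOk l → ∀ x y,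
      pth μ f (l ++ τ :: l') x y = ∫ z, pth μ f l x z * (τ z * pth μ f l' z y) ∂μ := by
  obtain ⟨⟨hτm, hτb⟩, -⟩ := wok_cons.1 hτ
  intro l
  induction l with
  | nil => intro _ x y; rfl
  | cons κ l ih =>
    intro hw x y
    obtain ⟨⟨hκm, hκb⟩, hl⟩ := wok_cons.1 hw
    have e1 : pth μ f ((κ :: l) ++ τ :: l') x y =
        ∫ w, ∫ z, f x w * (κ w * (pth μ f l w z * (τ z * pth μ f l' z y))) ∂μ ∂μ := by
      show ∫ w, f x w * (κ w * pth μ f (l ++ τ :: l') w y) ∂μ = _
      refine integral_congr_ae (Eventually.of_forall fun w => ?_)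
      show f x w * (κ w * pth μ f (l ++ τ :: l') w y) = _
      rw [ih hl w y, ← integral_const_mul, ← integral_const_mul]
    have e2 : ∫ z, pth μ f (κ :: l) x z * (τ z * pth μ f l' z y) ∂μ =
        ∫ z, ∫ w, f x w * (κ w * (pth μ f l w z * (τ z * pth μ f l' z y))) ∂μ ∂μ := by
      refine integral_congr_ae (Eventually.of_forall fun z => ?_)
      show (∫ w, f x w * (κ w * pth μ f l w z) ∂μ) * (τ z * pth μ f l' z y) = _
      rw [← integral_mul_const]
      refine integral_congr_ae (Eventually.of_forall fun w => ?_)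
      show f x w * (κ w * pth μ f l w z) * (τ z * pth μ f l' z y) = _
      ring
    rw [e1, e2]
    refine integral_integral_swap ?_
    have m1 : Measurable (fun p : Ω × Ω => f x p.1) :=
      hm.comp (measurable_const.prodMk measurable_fst)
    have m2 : Measurable (fun p : Ω × Ω => κ p.1) := hκm.comp measurable_fst
    have m3 : Measurable (fun p : Ω × Ω => pth μ f l p.1 p.2) := (basic hm hb l hl).1
    have m4 : Measurable (fun p : Ω × Ω => τ p.2) := hτm.comp measurable_snd
    have m5 : Measurable (fun p : Ω × Ω => pth μ f l' p.2 y) :=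
      (meas_right hm hb hl' y).comp measurable_snd
    refine Integrable.of_bound (m1.mul (m2.mul (m3.mul (m4.mul m5)))).aestronglyMeasurable 1
      (Eventually.of_forall fun p => ?_)
    show ‖f x p.1 * (κ p.1 * (pth μ f l p.1 p.2 * (τ p.2 * pth μ f l' p.2 y)))‖ ≤ 1
    rw [norm_mul, norm_mul, norm_mul, norm_mul]
    simp only [Real.norm_eq_abs]
    calc |f x p.1| * (|κ p.1| * (|pth μ f l p.1 p.2| * (|τ p.2| * |pth μ f l' p.2 y|)))
        ≤ 1 * (1 * (1 * (1 * 1))) := by
          gcongr
          · exact hb _ _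
          · exact hκb _
          · exact (basic hm hb l hl).2 _ _
          · exact hτb _
          · exact (basic hm hb l' hl').2 _ _
      _ = 1 := by norm_num

lemma rev (hs : ∀ x y, f x y = f y x) (hm : Measurable (fun z : Ω × Ω => f z.1 z.2))
    (hb : ∀ x y, |f x y| ≤ 1) : ∀ l : List (Ω → ℝ), WOk l → ∀ x y,
      pth μ f l.reverse x y = pth μ f l y x := by
  intro l
  induction l with
  | nil => intro _ x y; exact hs x y
  | cons τ l ih =>
    intro hw x y
    obtain ⟨hτ, hl⟩ := wok_cons.1 hw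
    have hr : WOk l.reverse := fun κ hκ => hl κ (List.mem_reverse.1 hκ)
    have h1 : WOk [τ] := wok_cons.2 ⟨hτ, fun κ hκ => absurd hκ (List.not_mem_nil)⟩
    have h0 : WOk ([] : List (Ω → ℝ)) := fun κ hκ => absurd hκ (List.not_mem_nil)
    rw [List.reverse_cons, concat hm hb τ [] h1 h0 l.reverse hr x y]
    show ∫ z, pth μ f l.reverse x z * (τ z * f z y) ∂μ = ∫ z, f y z * (τ z * pth μ f l z x) ∂μ
    refine integral_congr_ae (Eventually.of_forall fun z => ?_)
    show pth μ f l.reverse x z * (τ z * f z y) = f y z * (τ z * pth μ f l z x)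
    rw [ih hl x z, hs z y]
    ring

end PTB61

theorem t_ptb : PTBStmt := by
  intro Ω _ μ _ f hs hm hb
  refine ⟨fun l hl => ⟨(PTB61.basic hm hb l hl).1, (PTB61.basic hm hb l hl).2,
    fun x y => PTB61.rev hs hm hb l hl x y⟩, fun l τ l' hl hτ hl' x y => ?_⟩
  exact PTB61.concat hm hb τ l' hτ hl' l hl x y

end Pool.FOT
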